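import Mathlib
import Pool.Agent.X143.RS.Alg

set_option linter.unusedSectionVars false

namespace Pool.Agent.Results.MP_eb9ef7_pr.Selections

open Pool.Agent.X143.RS
open MeasureTheory Filter Topology ENNReal Metric

/-- `X` is a random closed set: its values are closed and it is Effros measurable. -/
def IsRandomClosedSet {Ω E : Type*} [MeasurableSpace Ω] [TopologicalSpace E] (X : Ω → Set E) :
    Prop :=
  (∀ ω, IsClosed (X ω)) ∧ ∀ G : Set E, IsOpen G → MeasurableSet {ω | (X ω ∩ G).Nonempty}

/-- `ξ` is a selection of `X`: a random element with `ξ ∈ X` almost surely. -/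
def IsSelection {Ω E : Type*} [MeasurableSpace Ω] [MeasurableSpace E] (P : Measure Ω)
    (X : Ω → Set E) (ξ : Ω → E) : Prop :=
  Measurable ξ ∧ ∀ᵐ ω ∂P, ξ ω ∈ X ω

/-- weak convergence of random closed sets: all the vectors of distances
`(ρ(x_1, X_n), ..., ρ(x_k, X_n))` in `[0, ∞]^k` converge in distribution. -/
def SetsConverge {E : Type*} [MetricSpace E] {Ω : ℕ → Type*} [∀ n, MeasurableSpace (Ω n)]
    (P : ∀ n, Measure (Ω n)) (X : ∀ n, Ω n → Set E) {Ω' : Type*} [MeasurableSpace Ω']
    (P' : Measure Ω') (X' : Ω' → Set E) : Prop :=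
  ∀ (k : ℕ) (x : Fin k → E) (g : BoundedContinuousFunction (Fin k → ℝ≥0∞) ℝ),
    Tendsto (fun n => ∫ ω, g (fun i => infEDist (x i) (X n ω)) ∂(P n)) atTop
      (𝓝 (∫ ω, g (fun i => infEDist (x i) (X' ω)) ∂P'))

/-- convergence in distribution of random elements of `E`. -/
def LawsConverge {E : Type*} [MetricSpace E] {Ω : ℕ → Type*} [∀ n, MeasurableSpace (Ω n)]
    (P : ∀ n, Measure (Ω n)) (ξ : ∀ n, Ω n → E) {Ω' : Type*} [MeasurableSpace Ω']
    (P' : Measure Ω') (ξ' : Ω' → E) : Prop :=
  ∀ g : BoundedContinuousFunction E ℝ,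
    Tendsto (fun n => ∫ ω, g (ξ n ω) ∂(P n)) atTop (𝓝 (∫ ω, g (ξ' ω) ∂P'))

section discrete

/-- convergence of integrals on a countable space from pointwise convergence of the masses -/
lemma discrete_conv {S : Type*} [Countable S] [MeasurableSpace S] [MeasurableSingletonClass S]
    (μs : ℕ → Measure S) [∀ n, IsProbabilityMeasure (μs n)] (μ : Measure S)
    [IsProbabilityMeasure μ] (h : ∀ s, Tendsto (fun n => (μs n).real {s}) atTop (𝓝 (μ.real {s})))
    (f : S → ℝ) (C : ℝ) (hf : ∀ s, |f s| ≤ C) :
    Tendsto (fun n => ∫ s, f s ∂(μs n)) atTop (𝓝 (∫ s, f s ∂μ)) := by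
  have hfm : ∀ (ν : Measure S) [IsProbabilityMeasure ν], Integrable f ν := by
    intro ν _
    refine ⟨(measurable_of_countable f).aestronglyMeasurable, ?_⟩
    exact HasFiniteIntegral.of_bounded (C := C) (Filter.Eventually.of_forall hf)
  have hone : ∀ (ν : Measure S) [IsProbabilityMeasure ν], HasSum (fun s => ν.real {s}) 1 := by
    intro ν _
    have h1 := (integral_countable (μ := ν) (f := fun _ : S => (1 : ℝ)) (integrable_const 1))
    simp only [integral_const, probReal_univ, smul_eq_mul, mul_one] at h1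
    have h2 : Summable (fun s => ν.real {s}) := by
      have h3 : ∑' s, ν {s} ≠ ∞ := by
        have h4 : ∑' s, ν {s} = ν Set.univ := by
          rw [← measure_iUnion (fun i j hij => by simpa using hij) (fun i => measurableSet_singleton i)]
          rw [Set.iUnion_of_singleton]
        rw [h4]
        exact measure_ne_top _ _
      exact ENNReal.summable_toReal h3
    rw [h1]
    exact h2.hasSum
  -- Scheffe
  have hpos : Tendsto (fun n => ∑' s, max (μ.real {s} - (μs n).real {s}) 0) atTop (𝓝 0) := by
    have h1 : Tendsto (fun n => ∑' s, max (μ.real {s} - (μs n).real {s}) 0) atTop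
        (𝓝 (∑' s : S, (0 : ℝ))) := by
      apply tendsto_tsum_of_dominated_convergence (hone μ).summable
      · intro s
        have h2 : Tendsto (fun n => max (μ.real {s} - (μs n).real {s}) 0) atTop
            (𝓝 (max (μ.real {s} - μ.real {s}) 0)) :=
          (tendsto_const_nhds.sub (h s)).max tendsto_const_nhds
        simpa using h2
      · refine Filter.Eventually.of_forall fun n s => ?_
        rw [Real.norm_eq_abs, abs_of_nonneg (le_max_right _ _)]
        apply max_le
        · have := measureReal_nonneg (μ := μs n) (s := {s})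
          linarith
        · exact measureReal_nonneg
    simpa using h1
  have hC : 0 ≤ C ∨ IsEmpty S := by
    rcases isEmpty_or_nonempty S with hS | ⟨⟨s⟩⟩
    · exact Or.inr hS
    · exact Or.inl ((abs_nonneg _).trans (hf s))
  rcases hC with hC | hS
  swap
  · simp [integral_of_isEmpty]
  rw [tendsto_iff_dist_tendsto_zero]
  have hbound : ∀ n, dist (∫ s, f s ∂(μs n)) (∫ s, f s ∂μ)
      ≤ C * (2 * ∑' s, max (μ.real {s} - (μs n).real {s}) 0) := by
    intro n
    have s1 := (hone (μs n)).summable
    have s2 := (hone μ).summable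
    have smax : Summable fun s => max (μ.real {s} - (μs n).real {s}) 0 := by
      refine Summable.of_nonneg_of_le (fun s => le_max_right _ _) (fun s => ?_) s2
      apply max_le
      · have := measureReal_nonneg (μ := μs n) (s := {s})
        linarith
      · exact measureReal_nonneg
    have e1 := integral_countable (hfm (μs n))
    have e2 := integral_countable (hfm μ)
    simp only [smul_eq_mul] at e1 e2
    have sf1 : Summable fun s => (μs n).real {s} * f s := by
      refine Summable.of_norm_bounded (s1.mul_right C) fun s => ?_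
      rw [norm_mul, Real.norm_eq_abs, Real.norm_eq_abs, abs_of_nonneg measureReal_nonneg]
      exact mul_le_mul_of_nonneg_left (hf s) measureReal_nonneg
    have sf2 : Summable fun s => μ.real {s} * f s := by
      refine Summable.of_norm_bounded (s2.mul_right C) fun s => ?_
      rw [norm_mul, Real.norm_eq_abs, Real.norm_eq_abs, abs_of_nonneg measureReal_nonneg]
      exact mul_le_mul_of_nonneg_left (hf s) measureReal_nonneg
    rw [e1, e2, Real.dist_eq, ← Summable.tsum_sub sf1 sf2]
    have sabs : Summable fun s => |(μs n).real {s} - μ.real {s}| := (s1.sub s2).abs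
    have h1 : |∑' s, ((μs n).real {s} * f s - μ.real {s} * f s)|
        ≤ ∑' s, |(μs n).real {s} - μ.real {s}| * C := by
      rw [← Real.norm_eq_abs]
      refine tsum_of_norm_bounded (sabs.mul_right C).hasSum fun s => ?_
      rw [← sub_mul, norm_mul, Real.norm_eq_abs, Real.norm_eq_abs]
      exact mul_le_mul_of_nonneg_left (hf s) (abs_nonneg _)
    refine h1.trans (le_of_eq ?_)
    rw [tsum_mul_right, mul_comm]
    congr 1
    have h2 : ∀ s, |(μs n).real {s} - μ.real {s}| = ((μs n).real {s} - μ.real {s})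
        + 2 * max (μ.real {s} - (μs n).real {s}) 0 := by
      intro s
      rcases le_total (μ.real {s}) ((μs n).real {s}) with h3 | h3
      · rw [abs_of_nonneg (by linarith), max_eq_right (by linarith)]
        ring
      · rw [abs_of_nonpos (by linarith), max_eq_left (by linarith)]
        ring
    rw [tsum_congr h2, Summable.tsum_add (s1.sub s2) (smax.mul_left 2), Summable.tsum_sub s1 s2,
      (hone (μs n)).tsum_eq, (hone μ).tsum_eq, tsum_mul_left]
    ring
  have hlim : Tendsto (fun n => C * (2 * ∑' s, max (μ.real {s} - (μs n).real {s}) 0)) atTop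
      (𝓝 0) := by
    have := (hpos.const_mul 2).const_mul C
    simpa using this
  exact squeeze_zero (fun n => dist_nonneg) hbound hlim

end discrete

section main

variable {E : Type*} [MetricSpace E]
  {Ω : ℕ → Type*} [∀ n, MeasurableSpace (Ω n)] {P : ∀ n, Measure (Ω n)}
  [∀ n, IsProbabilityMeasure (P n)] {X : ∀ n, Ω n → Set E}
  {Ω' : Type*} [MeasurableSpace Ω'] {P' : Measure Ω'} [IsProbabilityMeasure P'] {X' : Ω' → Set E}

/-- convergence of the probabilities of patterns of comparisons -/
lemma pattern_conv (hX : ∀ n, IsRandomClosedSet (X n)) (hX' : IsRandomClosedSet X')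
    (hconv : SetsConverge P X P' X') {k : ℕ} (y : Fin k → E) (s : Fin k → ℝ≥0∞)
    (hs : ∀ i, P' {ω | infEDist (y i) (X' ω) = s i} = 0) (Q : (Fin k → Prop) → Prop) :
    Tendsto (fun n => (P n).real {ω | Q (fun i => infEDist (y i) (X n ω) < s i)}) atTop
      (𝓝 (P'.real {ω | Q (fun i => infEDist (y i) (X' ω) < s i)})) := by
  have hm : ∀ n, Measurable fun ω => (fun i => infEDist (y i) (X n ω) : Fin k → ℝ≥0∞) := fun n =>
    measurable_pi_lambda _ fun i => measurable_infEDist_of_effros (hX n).2 (y i)
  have hm' : Measurable fun ω => (fun i => infEDist (y i) (X' ω) : Fin k → ℝ≥0∞) :=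
    measurable_pi_lambda _ fun i => measurable_infEDist_of_effros hX'.2 (y i)
  let μs : ℕ → ProbabilityMeasure (Fin k → ℝ≥0∞) := fun n =>
    ⟨(P n).map (fun ω => (fun i => infEDist (y i) (X n ω))),
      Measure.isProbabilityMeasure_map (hm n).aemeasurable⟩
  let μ : ProbabilityMeasure (Fin k → ℝ≥0∞) :=
    ⟨P'.map (fun ω => (fun i => infEDist (y i) (X' ω))),
      Measure.isProbabilityMeasure_map hm'.aemeasurable⟩
  have hlim : Tendsto μs atTop (𝓝 μ) := by
    rw [ProbabilityMeasure.tendsto_iff_forall_integral_tendsto]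
    intro g
    have h1 : ∀ n, ∫ v, g v ∂((μs n : ProbabilityMeasure (Fin k → ℝ≥0∞)) : Measure (Fin k → ℝ≥0∞))
        = ∫ ω, g (fun i => infEDist (y i) (X n ω)) ∂(P n) := fun n =>
      integral_map (hm n).aemeasurable g.continuous.measurable.aestronglyMeasurable
    have h2 : ∫ v, g v ∂((μ : ProbabilityMeasure (Fin k → ℝ≥0∞)) : Measure (Fin k → ℝ≥0∞))
        = ∫ ω, g (fun i => infEDist (y i) (X' ω)) ∂P' :=
      integral_map hm'.aemeasurable g.continuous.measurable.aestronglyMeasurable
    simp_rw [h1, h2]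
    exact hconv k y g
  set A : Set (Fin k → ℝ≥0∞) := {v | Q (fun i => v i < s i)} with hA
  have hfr : frontier A ⊆ ⋃ i, {v | v i = s i} := by
    intro v hv
    by_contra hcon
    rw [Set.mem_iUnion] at hcon
    push Not at hcon
    have hU : ∀ᶠ w in 𝓝 v, ∀ i, (w i < s i ↔ v i < s i) := by
      rw [Filter.eventually_all]
      intro i
      have hne : v i ≠ s i := hcon i
      rcases lt_or_gt_of_ne hne with hlt | hgt
      · have : ∀ᶠ w : Fin k → ℝ≥0∞ in 𝓝 v, w i < s i :=
          (continuous_apply i).continuousAt.eventually (Iio_mem_nhds hlt)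
        filter_upwards [this] with w hw
        exact ⟨fun _ => hlt, fun _ => hw⟩
      · have : ∀ᶠ w : Fin k → ℝ≥0∞ in 𝓝 v, s i < w i :=
          (continuous_apply i).continuousAt.eventually (Ioi_mem_nhds hgt)
        filter_upwards [this] with w hw
        exact ⟨fun h => absurd hw h.not_gt, fun h => absurd hgt h.not_gt⟩
    have hAU : ∀ᶠ w in 𝓝 v, (w ∈ A ↔ v ∈ A) := by
      filter_upwards [hU] with w hw
      have : (fun i => w i < s i) = fun i => v i < s i := funext fun i => propext (hw i)
      change Q (fun i => w i < s i) ↔ Q (fun i => v i < s i)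
      rw [this]
    rw [frontier_eq_closure_inter_closure] at hv
    have h1 := mem_closure_iff_frequently.1 hv.1
    have h2 := mem_closure_iff_frequently.1 hv.2
    obtain ⟨w, hw1, hw2⟩ := (h1.and_eventually hAU).exists
    obtain ⟨w', hw1', hw2'⟩ := (h2.and_eventually hAU).exists
    exact hw1' (hw2'.2 (hw2.1 hw1))
  have hAm : MeasurableSet A := by
    have h1 : ∀ t : Fin k → Prop, MeasurableSet {v : Fin k → ℝ≥0∞ | ∀ i, (v i < s i) = t i} := by
      intro t
      have : {v : Fin k → ℝ≥0∞ | ∀ i, (v i < s i) = t i} = ⋂ i, {v | (v i < s i) = t i} := by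
        ext v
        simp
      rw [this]
      refine MeasurableSet.iInter fun i => ?_
      by_cases ht : t i
      · have : {v : Fin k → ℝ≥0∞ | (v i < s i) = t i} = {v | v i < s i} := by
          ext v
          simp [ht]
        rw [this]
        exact measurableSet_lt (measurable_pi_apply i) measurable_const
      · have : {v : Fin k → ℝ≥0∞ | (v i < s i) = t i} = {v | v i < s i}ᶜ := by
          ext v
          simp [ht]
        rw [this]
        exact (measurableSet_lt (measurable_pi_apply i) measurable_const).compl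
    have h2 : A = ⋃ t : {t : Fin k → Prop // Q t}, {v | ∀ i, (v i < s i) = t.1 i} := by
      ext v
      rw [Set.mem_iUnion]
      constructor
      · intro hv
        exact ⟨⟨fun i => v i < s i, hv⟩, fun i => rfl⟩
      · rintro ⟨⟨t, ht⟩, hv⟩
        have : (fun i => v i < s i) = t := funext hv
        change Q (fun i => v i < s i)
        rw [this]
        exact ht
    rw [h2]
    exact MeasurableSet.iUnion fun t => h1 t.1
  have hnull : (μ : Measure (Fin k → ℝ≥0∞)) (frontier A) = 0 := by
    refine measure_mono_null hfr ?_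
    rw [measure_iUnion_null_iff]
    intro i
    have h1 : MeasurableSet {v : Fin k → ℝ≥0∞ | v i = s i} :=
      measurableSet_eq_fun (measurable_pi_apply i) measurable_const
    change (P'.map (fun ω => (fun i => infEDist (y i) (X' ω)))) {v : Fin k → ℝ≥0∞ | v i = s i} = 0
    rw [Measure.map_apply hm' h1]
    exact hs i
  have h := ProbabilityMeasure.tendsto_measure_of_null_frontier_of_tendsto' hlim hnull
  have h' := (ENNReal.tendsto_toReal (measure_ne_top _ _)).comp h
  have e1 : ∀ n, ((μs n : Measure (Fin k → ℝ≥0∞)) A).toReal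
      = (P n).real {ω | Q (fun i => infEDist (y i) (X n ω) < s i)} := by
    intro n
    change ((P n).map (fun ω => (fun i => infEDist (y i) (X n ω))) A).toReal = _
    rw [Measure.map_apply (hm n) hAm]
    rfl
  have e2 : ((μ : Measure (Fin k → ℝ≥0∞)) A).toReal
      = P'.real {ω | Q (fun i => infEDist (y i) (X' ω) < s i)} := by
    change (P'.map (fun ω => (fun i => infEDist (y i) (X' ω))) A).toReal = _
    rw [Measure.map_apply hm' hAm]
    rfl
  rw [e2] at h'
  exact h'.congr e1

/-- thresholds which are not charged -/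
lemma exists_thresholds (hX' : IsRandomClosedSet X') (x : ℕ → E) :
    ∃ r : ℕ → ℝ≥0∞, (∀ m, 0 < r m) ∧ (∀ m, r m ≤ 1 / 2 ^ m) ∧
      ∀ m k, P' {ω | infEDist (x k) (X' ω) = r m} = 0 := by
  have h1 : ∀ m : ℕ, ∃ t : ℝ≥0∞, 0 < t ∧ t ≤ 1 / 2 ^ m ∧
      ∀ k, P' {ω | infEDist (x k) (X' ω) = t} = 0 := by
    intro m
    set B : Set ℝ≥0∞ := ⋃ k, {t | 0 < P' {ω | infEDist (x k) (X' ω) = t}} with hB
    have hBc : B.Countable := Set.countable_iUnion fun k =>
      Measure.countable_meas_level_set_pos (measurable_infEDist_of_effros hX'.2 (x k))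
    have hTc : (Set.Ioi (0 : ℝ) ∩ ENNReal.ofReal ⁻¹' B).Countable := by
      have h2 : Set.InjOn ENNReal.ofReal (Set.Ioi (0 : ℝ) ∩ ENNReal.ofReal ⁻¹' B) := by
        intro a ha b hb hab
        have := congrArg ENNReal.toReal hab
        rwa [ENNReal.toReal_ofReal (le_of_lt ha.1), ENNReal.toReal_ofReal (le_of_lt hb.1)] at this
      refine Set.MapsTo.countable_of_injOn ?_ h2 hBc
      intro a ha
      exact ha.2
    have hd := hTc.dense_compl ℝ
    obtain ⟨t, ht1, ht2⟩ := hd.exists_mem_open (isOpen_Ioo (a := (0 : ℝ)) (b := 1 / 2 ^ m))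
      ⟨1 / 2 ^ m / 2, by constructor <;> [positivity; exact half_lt_self (by positivity)]⟩
    refine ⟨ENNReal.ofReal t, ENNReal.ofReal_pos.2 ht2.1, ?_, ?_⟩
    · have h3 : ENNReal.ofReal t ≤ ENNReal.ofReal (1 / 2 ^ m) := ENNReal.ofReal_le_ofReal ht2.2.le
      refine h3.trans (le_of_eq ?_)
      rw [ENNReal.ofReal_div_of_pos (by positivity), ENNReal.ofReal_one,
        ENNReal.ofReal_pow (by norm_num)]
      norm_num
    · intro k
      by_contra hne
      apply ht1
      refine ⟨ht2.1, ?_⟩
      change ENNReal.ofReal t ∈ B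
      rw [hB, Set.mem_iUnion]
      exact ⟨k, pos_iff_ne_zero.2 hne⟩
  choose r hr1 hr2 hr3 using h1
  exact ⟨r, hr1, hr2, hr3⟩

/-- convergence of the probabilities of paths -/
lemma path_conv (hX : ∀ n, IsRandomClosedSet (X n)) (hX' : IsRandomClosedSet X')
    (hne : ∀ n, ∀ᵐ ω ∂(P n), (X n ω).Nonempty) (hne' : ∀ᵐ ω ∂P', (X' ω).Nonempty)
    (hconv : SetsConverge P X P' X') {x : ℕ → E} (hx : DenseRange x) {r : ℕ → ℝ≥0∞}
    (hr : ∀ m, 0 < r m) (hr0 : ∀ m k, P' {ω | infEDist (x k) (X' ω) = r m} = 0)
    (m : ℕ) (a : ℕ → ℕ) :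
    Tendsto (fun n => (P n).real {ω | ∀ i ≤ m, kk x r i (X n ω) = a i}) atTop
      (𝓝 (P'.real {ω | ∀ i ≤ m, kk x r i (X' ω) = a i})) := by
  obtain ⟨K, hK⟩ : ∃ K, ∀ i ≤ m, a i ≤ K := by
    refine ⟨(Finset.range (m + 1)).sup a, fun i hi => ?_⟩
    exact Finset.le_sup (f := a) (Finset.mem_range.2 (by omega))
  let e : Fin ((m + 1) * (K + 1)) ≃ Fin (m + 1) × Fin (K + 1) := finProdFinEquiv.symm
  let y : Fin ((m + 1) * (K + 1)) → E := fun l => x (e l).2
  let s : Fin ((m + 1) * (K + 1)) → ℝ≥0∞ := fun l => r (e l).1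
  let Q : (Fin ((m + 1) * (K + 1)) → Prop) → Prop := fun t =>
    ∃ F : Set E, F.Nonempty ∧ (∀ l, t l = (infEDist (y l) F < s l)) ∧ ∀ i ≤ m, kk x r i F = a i
  have hQ : ∀ F : Set E, F.Nonempty →
      (Q (fun l => infEDist (y l) F < s l) ↔ ∀ i ≤ m, kk x r i F = a i) := by
    intro F hF
    constructor
    · rintro ⟨F', hF', hpat, hpath⟩
      refine path_congr hx hr hF' hK ?_ hpath
      intro i hi b hb
      have h1 := hpat (e.symm (⟨i, by omega⟩, ⟨b, by omega⟩))
      have h2 : y (e.symm (⟨i, by omega⟩, ⟨b, by omega⟩)) = x b := by simp [y]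
      have h3 : s (e.symm (⟨i, by omega⟩, ⟨b, by omega⟩)) = r i := by simp [s]
      simp only [h2, h3] at h1
      rw [h1]
    · intro h
      exact ⟨F, hF, fun l => rfl, h⟩
  have h := pattern_conv hX hX' hconv y s (fun l => hr0 _ _) Q
  have e1 : ∀ n, (P n).real {ω | Q (fun l => infEDist (y l) (X n ω) < s l)}
      = (P n).real {ω | ∀ i ≤ m, kk x r i (X n ω) = a i} := by
    intro n
    apply measureReal_congr
    filter_upwards [hne n] with ω hω
    exact propext (hQ _ hω)
  have e2 : P'.real {ω | Q (fun l => infEDist (y l) (X' ω) < s l)}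
      = P'.real {ω | ∀ i ≤ m, kk x r i (X' ω) = a i} := by
    apply measureReal_congr
    filter_upwards [hne'] with ω hω
    exact propext (hQ _ hω)
  rw [e2] at h
  exact h.congr e1

/-- convergence in law of the approximations at step `m` -/
lemma step_conv (hX : ∀ n, IsRandomClosedSet (X n)) (hX' : IsRandomClosedSet X')
    (hne : ∀ n, ∀ᵐ ω ∂(P n), (X n ω).Nonempty) (hne' : ∀ᵐ ω ∂P', (X' ω).Nonempty)
    (hconv : SetsConverge P X P' X') {x : ℕ → E} (hx : DenseRange x) {r : ℕ → ℝ≥0∞}
    (hr : ∀ m, 0 < r m) (hr0 : ∀ m k, P' {ω | infEDist (x k) (X' ω) = r m} = 0)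
    (m : ℕ) (f : ℕ → ℝ) (C : ℝ) (hf : ∀ k, |f k| ≤ C) :
    Tendsto (fun n => ∫ ω, f (kk x r m (X n ω)) ∂(P n)) atTop
      (𝓝 (∫ ω, f (kk x r m (X' ω)) ∂P')) := by
  let U : Set E → (Fin (m + 1) → ℕ) := fun F i => kk x r i F
  have hU : ∀ n, Measurable fun ω => U (X n ω) := fun n =>
    measurable_pi_lambda _ fun i => measurable_kk (hX n).2 i
  have hU' : Measurable fun ω => U (X' ω) :=
    measurable_pi_lambda _ fun i => measurable_kk hX'.2 i
  have hp : ∀ n, IsProbabilityMeasure ((P n).map fun ω => U (X n ω)) := fun n =>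
    Measure.isProbabilityMeasure_map (hU n).aemeasurable
  have hp' : IsProbabilityMeasure (P'.map fun ω => U (X' ω)) :=
    Measure.isProbabilityMeasure_map hU'.aemeasurable
  have key := discrete_conv (fun n => (P n).map fun ω => U (X n ω)) (P'.map fun ω => U (X' ω))
    (by
      intro a
      have h := path_conv hX hX' hne hne' hconv hx hr hr0 m
        (fun i => if h : i < m + 1 then a ⟨i, h⟩ else 0)
      have hset : ∀ F : Set E, (∀ i ≤ m, kk x r i F = if h : i < m + 1 then a ⟨i, h⟩ else 0)
          ↔ U F = a := by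
        intro F
        constructor
        · intro h1
          funext i
          have h2 := h1 i.1 (by omega)
          rw [dif_pos i.2] at h2
          exact h2
        · intro h1 i hi
          rw [dif_pos (by omega)]
          exact congrFun h1 ⟨i, by omega⟩
      have e1 : ∀ n, (P n).real {ω | ∀ i ≤ m, kk x r i (X n ω)
          = if h : i < m + 1 then a ⟨i, h⟩ else 0} = ((P n).map fun ω => U (X n ω)).real {a} := by
        intro n
        rw [map_measureReal_apply (hU n) (measurableSet_singleton a)]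
        congr 1
        ext ω
        exact hset _
      have e2 : P'.real {ω | ∀ i ≤ m, kk x r i (X' ω)
          = if h : i < m + 1 then a ⟨i, h⟩ else 0} = (P'.map fun ω => U (X' ω)).real {a} := by
        rw [map_measureReal_apply hU' (measurableSet_singleton a)]
        congr 1
        ext ω
        exact hset _
      rw [e2] at h
      exact h.congr e1)
    (fun a => f (a (Fin.last m))) C (fun a => hf _)
  have g1 : ∀ n, ∫ a, f (a (Fin.last m)) ∂((P n).map fun ω => U (X n ω))
      = ∫ ω, f (kk x r m (X n ω)) ∂(P n) := fun n =>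
    integral_map (hU n).aemeasurable (measurable_of_countable _).aestronglyMeasurable
  have g2 : ∫ a, f (a (Fin.last m)) ∂(P'.map fun ω => U (X' ω))
      = ∫ ω, f (kk x r m (X' ω)) ∂P' :=
    integral_map hU'.aemeasurable (measurable_of_countable _).aestronglyMeasurable
  simp_rw [g1, g2] at key
  exact key

end main

/-- Weakly convergent random closed sets in a complete separable metric space (in particular in a
separable Banach space), not necessarily convex, admit selections which converge in
distribution. -/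
theorem result {E : Type*} [MetricSpace E] [CompleteSpace E] [SecondCountableTopology E]
    [MeasurableSpace E] [BorelSpace E]
    {Ω : ℕ → Type*} [∀ n, MeasurableSpace (Ω n)] (P : ∀ n, Measure (Ω n))
    [∀ n, IsProbabilityMeasure (P n)] (X : ∀ n, Ω n → Set E)
    {Ω' : Type*} [MeasurableSpace Ω'] (P' : Measure Ω') [IsProbabilityMeasure P']
    (X' : Ω' → Set E)
    (hX : ∀ n, IsRandomClosedSet (X n)) (hX' : IsRandomClosedSet X')
    (hne : ∀ n, ∀ᵐ ω ∂(P n), (X n ω).Nonempty) (hne' : ∀ᵐ ω ∂P', (X' ω).Nonempty)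
    (hconv : SetsConverge P X P' X') :
    ∃ (ξ : ∀ n, Ω n → E) (ξ' : Ω' → E), (∀ n, IsSelection (P n) (X n) (ξ n)) ∧
      IsSelection P' X' ξ' ∧ LawsConverge P ξ P' ξ' := by
  have hE : Nonempty E := by
    obtain ⟨ω, hω⟩ := hne'.exists
    exact ⟨hω.some⟩
  set x : ℕ → E := TopologicalSpace.denseSeq E with hxdef
  have hx : DenseRange x := TopologicalSpace.denseRange_denseSeq E
  obtain ⟨r, hr, hr', hr0⟩ := exists_thresholds (P' := P') hX' x
  let ξ : ∀ n, Ω n → E := fun n ω => sel hx hr hr' (X n ω)
  let ξ' : Ω' → E := fun ω => sel hx hr hr' (X' ω)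
  have hξ : ∀ n, Measurable (ξ n) := fun n => measurable_sel hx hr hr' (hX n).2
  have hξ' : Measurable ξ' := measurable_sel hx hr hr' hX'.2
  refine ⟨ξ, ξ', fun n => ⟨hξ n, ?_⟩, ⟨hξ', ?_⟩, ?_⟩
  · filter_upwards [hne n] with ω hω
    exact sel_mem hx hr hr' hω ((hX n).1 ω)
  · filter_upwards [hne'] with ω hω
    exact sel_mem hx hr hr' hω (hX'.1 ω)
  · let μs : ℕ → ProbabilityMeasure E := fun n =>
      ⟨(P n).map (ξ n), Measure.isProbabilityMeasure_map (hξ n).aemeasurable⟩
    let μ : ProbabilityMeasure E := ⟨P'.map ξ', Measure.isProbabilityMeasure_map hξ'.aemeasurable⟩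
    have hlim : Tendsto μs atTop (𝓝 μ) := by
      rw [tendsto_iff_forall_lipschitz_integral_tendsto]
      rintro f ⟨C, hC⟩ ⟨L, hL⟩
      have h1 : ∀ n, ∫ v, f v ∂((μs n : ProbabilityMeasure E) : Measure E)
          = ∫ ω, f (ξ n ω) ∂(P n) := fun n =>
        integral_map (hξ n).aemeasurable hL.continuous.measurable.aestronglyMeasurable
      have h2 : ∫ v, f v ∂((μ : ProbabilityMeasure E) : Measure E)
          = ∫ ω, f (ξ' ω) ∂P' :=
        integral_map hξ'.aemeasurable hL.continuous.measurable.aestronglyMeasurable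
      simp_rw [h1, h2]
      obtain ⟨z⟩ := hE
      have hbd : ∀ v, |f v| ≤ |f z| + C := by
        intro v
        have h3 := hC v z
        rw [Real.dist_eq] at h3
        calc |f v| = |f z + (f v - f z)| := by ring_nf
          _ ≤ |f z| + |f v - f z| := abs_add_le _ _
          _ ≤ |f z| + C := by linarith
      -- the error
      have herr : ∀ (F : Set E) (m : ℕ), |f (sel hx hr hr' F) - f (x (kk x r m F))|
          ≤ L * (4 / 2 ^ m) := by
        intro F m
        have h3 := hL.dist_le_mul (sel hx hr hr' F) (x (kk x r m F))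
        rw [Real.dist_eq] at h3
        refine h3.trans (mul_le_mul_of_nonneg_left ?_ L.2)
        have h4 := sel_dist hx hr hr' F m
        rw [edist_comm, edist_dist] at h4
        have h5 : (4 : ℝ≥0∞) / 2 ^ m = ENNReal.ofReal (4 / 2 ^ m) := by
          rw [ENNReal.ofReal_div_of_pos (by positivity), ENNReal.ofReal_pow (by norm_num)]
          norm_num
        rw [h5, ENNReal.ofReal_le_ofReal_iff (by positivity)] at h4
        exact h4
      have herr1 : ∀ n m, |∫ ω, f (ξ n ω) ∂(P n) - ∫ ω, f (x (kk x r m (X n ω))) ∂(P n)|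
          ≤ L * (4 / 2 ^ m) := by
        intro n m
        have i1 : Integrable (fun ω => f (ξ n ω)) (P n) := by
          refine ⟨(hL.continuous.measurable.comp (hξ n)).aestronglyMeasurable,
            HasFiniteIntegral.of_bounded (C := |f z| + C)
            (Filter.Eventually.of_forall fun ω => hbd _)⟩
        have i2 : Integrable (fun ω => f (x (kk x r m (X n ω)))) (P n) := by
          refine ⟨(hL.continuous.measurable.comp
            (measurable_from_nat.comp (measurable_kk (hX n).2 m))).aestronglyMeasurable,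
            HasFiniteIntegral.of_bounded (C := |f z| + C)
            (Filter.Eventually.of_forall fun ω => hbd _)⟩
        rw [← integral_sub i1 i2, ← Real.norm_eq_abs]
        refine (norm_integral_le_of_norm_le_const (C := L * (4 / 2 ^ m))
          (Filter.Eventually.of_forall fun ω => ?_)).trans (le_of_eq ?_)
        · exact herr _ m
        · simp
      have herr2 : ∀ m, |∫ ω, f (ξ' ω) ∂P' - ∫ ω, f (x (kk x r m (X' ω))) ∂P'|
          ≤ L * (4 / 2 ^ m) := by
        intro m
        have i1 : Integrable (fun ω => f (ξ' ω)) P' := by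
          refine ⟨(hL.continuous.measurable.comp hξ').aestronglyMeasurable,
            HasFiniteIntegral.of_bounded (C := |f z| + C)
            (Filter.Eventually.of_forall fun ω => hbd _)⟩
        have i2 : Integrable (fun ω => f (x (kk x r m (X' ω)))) P' := by
          refine ⟨(hL.continuous.measurable.comp
            (measurable_from_nat.comp (measurable_kk hX'.2 m))).aestronglyMeasurable,
            HasFiniteIntegral.of_bounded (C := |f z| + C)
            (Filter.Eventually.of_forall fun ω => hbd _)⟩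
        rw [← integral_sub i1 i2, ← Real.norm_eq_abs]
        refine (norm_integral_le_of_norm_le_const (C := L * (4 / 2 ^ m))
          (Filter.Eventually.of_forall fun ω => ?_)).trans (le_of_eq ?_)
        · exact herr _ m
        · simp
      have hδ : Tendsto (fun m : ℕ => (L : ℝ) * (4 / 2 ^ m)) atTop (𝓝 0) := by
        have h3 : Tendsto (fun m : ℕ => ((1 / 2 : ℝ)) ^ m) atTop (𝓝 0) :=
          tendsto_pow_atTop_nhds_zero_of_lt_one (by norm_num) (by norm_num)
        have h4 := h3.const_mul ((L : ℝ) * 4)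
        rw [mul_zero] at h4
        refine h4.congr fun m => ?_
        rw [one_div, inv_pow]
        ring
      rw [Metric.tendsto_atTop]
      intro ε hε
      obtain ⟨m, hm⟩ := ((tendsto_order.1 hδ).2 (ε / 4) (by positivity)).exists
      have hstep := step_conv hX hX' hne hne' hconv hx hr hr0 m (fun k => f (x k)) (|f z| + C)
        (fun k => hbd _)
      rw [Metric.tendsto_atTop] at hstep
      obtain ⟨n₀, hn₀⟩ := hstep (ε / 4) (by positivity)
      refine ⟨n₀, fun n hn => ?_⟩
      have e1 := herr1 n m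
      have e2 := herr2 m
      have e3 := hn₀ n hn
      rw [Real.dist_eq] at e3 ⊢
      have e4 := abs_sub_le (∫ ω, f (ξ n ω) ∂(P n)) (∫ ω, f (x (kk x r m (X n ω))) ∂(P n))
        (∫ ω, f (ξ' ω) ∂P')
      have e5 := abs_sub_le (∫ ω, f (x (kk x r m (X n ω))) ∂(P n))
        (∫ ω, f (x (kk x r m (X' ω))) ∂P') (∫ ω, f (ξ' ω) ∂P')
      rw [abs_sub_comm (∫ ω, f (x (kk x r m (X' ω))) ∂P')] at e5
      linarith
    rw [ProbabilityMeasure.tendsto_iff_forall_integral_tendsto] at hlim
    intro g
    have h1 : ∀ n, ∫ v, g v ∂((μs n : ProbabilityMeasure E) : Measure E)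
        = ∫ ω, g (ξ n ω) ∂(P n) := fun n =>
      integral_map (hξ n).aemeasurable g.continuous.measurable.aestronglyMeasurable
    have h2 : ∫ v, g v ∂((μ : ProbabilityMeasure E) : Measure E)
        = ∫ ω, g (ξ' ω) ∂P' :=
      integral_map hξ'.aemeasurable g.continuous.measurable.aestronglyMeasurable
    have h3 := hlim g
    simp_rw [h1, h2] at h3
    exact h3

end Pool.Agent.Results.MP_eb9ef7_pr.Selections
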